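import Pool.Agent.Run7.h96.IX.Stm

/-! Project IX (helper96), piece PT. -/

set_option autoImplicit false

open Finset Filter Topology

namespace Run7.h531.IX

open Run7.h96.IX

theorem cnt_comm {n : ℕ} (lam : ℕ) (A B : Finset (Finset (Fin n))) :
    cnt lam A B = cnt lam B A := by
  unfold cnt
  apply Finset.card_nbij' Prod.swap Prod.swap
  · rintro ⟨p, q⟩ hp
    simp only [coe_filter, mem_product, Set.mem_ofPred_eq, Prod.swap] at hp ⊢
    exact ⟨⟨hp.1.2, hp.1.1⟩, by rw [Finset.inter_comm]; exact hp.2⟩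
  · rintro ⟨p, q⟩ hp
    simp only [coe_filter, mem_product, Set.mem_ofPred_eq, Prod.swap] at hp ⊢
    exact ⟨⟨hp.1.2, hp.1.1⟩, by rw [Finset.inter_comm]; exact hp.2⟩
  · intro p _
    exact Prod.swap_swap p
  · intro p _
    exact Prod.swap_swap p

theorem exists_n (ε : ℝ) (hε : 0 < ε) : ∃ n : ℕ, 1 ≤ n ∧
    3 * Real.logb 2 ((n : ℝ) + 1) ≤ ε / 2 * n := by
  have h1 : Tendsto (fun n : ℕ => (n : ℝ) + 1) atTop atTop :=
    tendsto_atTop_add_const_right _ _ tendsto_natCast_atTop_atTop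
  have h2 := (Real.tendsto_pow_log_div_mul_add_atTop 1 (-1) 1 one_ne_zero).comp h1
  have hl2 : 0 < Real.log 2 := Real.log_pos one_lt_two
  have hc : 0 < ε * Real.log 2 / 6 := by positivity
  have h3 := (h2.eventually (gt_mem_nhds hc)).and (eventually_ge_atTop 1)
  obtain ⟨n, hn, hn1⟩ := h3.exists
  refine ⟨n, hn1, ?_⟩
  have hn0 : (0 : ℝ) < n := by exact_mod_cast hn1
  have hn' : Real.log ((n : ℝ) + 1) / n < ε * Real.log 2 / 6 := by
    have : ((fun x : ℝ => Real.log x ^ 1 / (1 * x + -1)) ∘ fun n : ℕ => (n : ℝ) + 1) n =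
        Real.log ((n : ℝ) + 1) / n := by
      simp only [Function.comp, pow_one]
      congr 1
      ring
    rwa [this] at hn
  rw [div_lt_iff₀ hn0] at hn'
  unfold Real.logb
  rw [← mul_div_assoc, div_le_iff₀ hl2]
  nlinarith

theorem t_PT : S_NB → S_PIG → S_MUL → S_PT := by
  intro hNB hPIG hMUL s x ε hs hx hε
  obtain ⟨hN1, _, _, hNd⟩ := hNB s x hs hx
  have hN0 : 0 < N s x := lt_of_lt_of_le one_pos hN1
  have hq : (2 : ℝ) ^ (-(ε / 2)) < 1 := by
    apply Real.rpow_lt_one_of_one_lt_of_neg one_lt_two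
    linarith
  have hq0 : (0 : ℝ) < 2 ^ (-(ε / 2)) := Real.rpow_pos_of_pos two_pos _
  obtain ⟨a, b, ha0, ha1, hb0, hb1, hg⟩ := hNd (N s x * (1 - 2 ^ (-(ε / 2))))
    (mul_pos hN0 (by linarith))
  have hg' : N s x * 2 ^ (-(ε / 2)) < g s x a b := by
    have : N s x - N s x * (1 - 2 ^ (-(ε / 2))) = N s x * 2 ^ (-(ε / 2)) := by ring
    linarith
  have hg0 : 0 < g s x a b := lt_trans (mul_pos hN0 hq0) hg'
  have hlg : Real.logb 2 (N s x) - ε / 2 ≤ Real.logb 2 (g s x a b) := by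
    have h := Real.logb_le_logb_of_le one_lt_two (mul_pos hN0 hq0) hg'.le
    rw [Real.logb_mul hN0.ne' hq0.ne', Real.logb_rpow two_pos (by norm_num)] at h
    linarith
  obtain ⟨n, hn1, hn⟩ := exists_n ε hε
  have hn0 : (0 : ℝ) < n := by exact_mod_cast hn1
  obtain ⟨i, j, lam, hi, hj, hlam, hP⟩ := hPIG n s x a b hs hx ha0 ha1 hb0 hb1
  set P0 : ℕ := cnt lam (powersetCard i (univ : Finset (Fin n))) (powersetCard j univ) with hP0
  have hci : 0 < n.choose i := Nat.choose_pos hi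
  have hcj : 0 < n.choose j := Nat.choose_pos hj
  have hK0 : (0 : ℝ) < (n.choose i : ℝ) * n.choose j := by positivity
  have hKs : (0 : ℝ) < ((n.choose i : ℝ) * n.choose j) ^ s := Real.rpow_pos_of_pos hK0 _
  have hleft : 0 < g s x a b ^ n * ((n.choose i : ℝ) * n.choose j) ^ s :=
    mul_pos (pow_pos hg0 n) hKs
  have hPpos : 0 < P0 := by
    rcases Nat.eq_zero_or_pos P0 with h | h
    · rw [h] at hP
      simp only [Nat.cast_zero, mul_zero] at hP
      exact absurd hP (not_le.2 hleft)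
    · exact h
  have hPr : (0 : ℝ) < P0 := by exact_mod_cast hPpos
  -- the logarithm
  have hlog : n * Real.logb 2 (g s x a b) + s * Real.logb 2 ((n.choose i : ℝ) * n.choose j) ≤
      3 * Real.logb 2 ((n : ℝ) + 1) + lam * Real.logb 2 x + Real.logb 2 P0 := by
    have h := Real.logb_le_logb_of_le one_lt_two hleft hP
    have hn3 : (0 : ℝ) < ((n : ℝ) + 1) ^ 3 := by positivity
    have hxl : (0 : ℝ) < x ^ lam := pow_pos hx lam
    rw [Real.logb_mul (pow_pos hg0 n).ne' hKs.ne', Real.logb_pow, Real.logb_rpow_eq_mul_logb_of_pos hK0,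
      Real.logb_mul (mul_pos hn3 hxl).ne' hPr.ne', Real.logb_mul hn3.ne' hxl.ne', Real.logb_pow,
      Real.logb_pow] at h
    exact_mod_cast h
  obtain ⟨A, B, hA, hB, hAB⟩ := hMUL n n lam lam (powersetCard i (univ : Finset (Fin n)))
    (powersetCard j univ) (powersetCard j univ) (powersetCard i univ)
  rw [cnt_comm lam (powersetCard j univ) (powersetCard i univ), ← hP0] at hAB
  rw [card_powersetCard, card_powersetCard, card_univ, Fintype.card_fin] at hA hB
  refine ⟨(Real.logb 2 ((P0 * P0 : ℕ) : ℝ) / ((n + n : ℕ) : ℝ),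
    2 * Real.logb 2 ((n.choose i * n.choose j : ℕ) : ℝ) / ((n + n : ℕ) : ℝ),
    ((lam + lam : ℕ) : ℝ) / ((n + n : ℕ) : ℝ)),
    ⟨n + n, P0 * P0, n.choose i * n.choose j, lam + lam, by omega, Nat.mul_pos hPpos hPpos,
      Nat.mul_pos hci hcj, ⟨A, B, hA, by rw [hB, mul_comm], hAB⟩, rfl⟩, ?_⟩
  show Real.logb 2 (N s x) - ε ≤ Real.logb 2 ((P0 * P0 : ℕ) : ℝ) / ((n + n : ℕ) : ℝ) -
    s * (2 * Real.logb 2 ((n.choose i * n.choose j : ℕ) : ℝ) / ((n + n : ℕ) : ℝ)) +
    ((lam + lam : ℕ) : ℝ) / ((n + n : ℕ) : ℝ) * Real.logb 2 x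
  push_cast
  rw [Real.logb_mul hPr.ne' hPr.ne']
  set Q := Real.logb 2 ((n.choose i : ℝ) * n.choose j) with hQ
  have e : (Real.logb 2 (P0 : ℝ) + Real.logb 2 (P0 : ℝ)) / ((n : ℝ) + n) -
      s * (2 * Q / ((n : ℝ) + n)) + ((lam : ℝ) + lam) / ((n : ℝ) + n) * Real.logb 2 x =
      (Real.logb 2 (P0 : ℝ) - s * Q + lam * Real.logb 2 x) / n := by
    field_simp
    ring
  rw [e, le_div_iff₀ hn0]
  nlinarith

end Run7.h531.IX
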